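import Pool.Agent.U899.LG2
import Pool.Agent.Q51.ZC.Zer4

/-!
The local-global principle for twists in the form in which it is used by the hand-ins.
-/

set_option autoImplicit false

namespace Pool.Agent.U899.LG

open Polynomial
open Pool.Agent.Q51.EB (CurvePtM ELSM)
open Pool.Agent.Q51.ZC (fq CPoint Soluble)

variable {a b : ℤ} {n m : ℕ}

lemma not_sq {D : ℤ} (hD : Squarefree D) {p : ℕ} (hp : p.Prime) : ¬ (p : ℤ) ^ 2 ∣ D := by
  intro h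
  rw [pow_two] at h
  have h1 := hD _ h
  exact (Nat.prime_iff_prime_int.1 hp).not_unit h1

/-- there is an everywhere locally soluble squarefree twist if and only if for each `p` some twist by an integer
which is not divisible by `p ^ 2` has a point over `ℚ_p` -/
theorem lg_iff (hn : Odd n) (hm : 1 < m) (hmn : m ∣ n)
    (hirr : Irreducible (C (a : ℚ) * X ^ n + C (b : ℚ))) :
    (∃ D : ℤ, Squarefree D ∧ Soluble a b n m D) ↔
      ∀ (p : ℕ) [Fact p.Prime], ∃ D : ℤ, ¬ (p : ℤ) ^ 2 ∣ D ∧ Nonempty (CPoint a b n m D ℚ_[p]) := by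
  have hn0 := hn.pos
  have hirr' := hirr
  rw [← Pool.Agent.Q51.ZC.fq_map] at hirr'
  obtain ⟨ha, -⟩ := Pool.Agent.Q51.ZC.fq_ne (by
    have := Nat.le_of_dvd hn0 hmn
    omega) hirr'
  constructor
  · rintro ⟨D, hD, hs⟩ p hp
    exact ⟨D, not_sq hD hp.out, hs.2 ⟨p, hp.out⟩⟩
  · intro h
    obtain ⟨D, hD, hs⟩ := lg (m := m) hn (by omega) ha hirr' (by
      intro p hp
      obtain ⟨D, h1, ⟨Q⟩⟩ := h p
      exact ⟨D, h1, Q.x, Q.w, Q.y, Q.ne,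
        Q.eq.trans (Pool.Agent.Q51.ZC.hom_fq ha b hn0 _ _).symm⟩)
    exact ⟨D, hD, (Pool.Agent.Q51.ZC.soluble_iff ha hn0).1 hs⟩

/-- the condition is satisfied if no square of a prime divides `a` and `b` -/
theorem att (hn : Odd n) (hm : 1 < m) (h : ∀ p : ℕ, p.Prime → ¬ ((p : ℤ) ^ 2 ∣ a ∧ (p : ℤ) ^ 2 ∣ b))
    (p : ℕ) [hp : Fact p.Prime] :
    ∃ D : ℤ, ¬ (p : ℤ) ^ 2 ∣ D ∧ Nonempty (CPoint a b n m D ℚ_[p]) := by
  by_cases h1 : (p : ℤ) ^ 2 ∣ a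
  · refine ⟨b, fun h2 => h p hp.out ⟨h1, h2⟩, ⟨⟨0, 1, 1, Or.inr one_ne_zero, ?_⟩⟩⟩
    rw [zero_pow hn.pos.ne', one_pow, one_pow, mul_zero, zero_add]
  · refine ⟨a, h1, ⟨⟨1, 0, 1, Or.inl one_ne_zero, ?_⟩⟩⟩
    rw [zero_pow hn.pos.ne', one_pow, one_pow, mul_zero, add_zero]

end Pool.Agent.U899.LG
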