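import Pool.Agent.Q68.EB.Solvm
import Pool.Agent.Q241.EB.WeilM

/-!
Twists `D y ^ m = F(x, w)`: points over `ℚ_p` at the good primes, and local constancy of solubility in `D`.
-/

set_option autoImplicit false

namespace Pool.Agent.U899.LG

open Polynomial _root_.Q52.EL Pool.Agent.Q68.EB
open Pool.Agent.Q51.EL (hom)
open Pool.Agent.Q51.EB (CurvePtM ELSM S_WEIL)

/-- There is `W ≠ 0` such that for all primes `p ∤ W` the curve `D y ^ m = F(x, w)` has a point over `ℚ_p` if `p ∤ D`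
or if `f` has a zero modulo `p`. -/
theorem good (f : ℤ[X]) (hirr : Irreducible (f.map (Int.castRingHom ℚ))) (m : ℕ) (hm : 0 < m) :
    ∃ W : ℕ, W ≠ 0 ∧ ∀ (D : ℤ) (p : ℕ) [Fact p.Prime], ¬ p ∣ W →
      ((p : ℤ) ∣ D → ∃ r : ℤ, (p : ℤ) ∣ f.eval r) → CurvePtM f m D ℚ_[p] := by
  have h1 := Pool.Agent.Q241.EB.weilm
  obtain ⟨c, U, V, hc, hUV⟩ := bezout f hirr
  have hinj : Function.Injective (Int.castRingHom ℚ) := Int.cast_injective
  have hn : 1 ≤ f.natDegree := by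
    have h1 : (f.map (Int.castRingHom ℚ)).natDegree = f.natDegree :=
      Polynomial.natDegree_map_eq_of_injective hinj f
    rw [← h1]
    exact Polynomial.natDegree_pos_iff_degree_pos.2 hirr.degree_pos
  have hf0 : f ≠ 0 := by
    rintro rfl
    rw [natDegree_zero] at hn
    omega
  set n := f.natDegree with hnd
  set W : ℕ := m ^ 3 * f.leadingCoeff.natAbs * c.natAbs *
    ((m * n + n + 1) ^ 2).factorial with hW
  have hW0 : W ≠ 0 := by
    rw [hW]
    have h2 : f.leadingCoeff.natAbs ≠ 0 := Int.natAbs_ne_zero.2 (leadingCoeff_ne_zero.2 hf0)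
    have h3 : c.natAbs ≠ 0 := Int.natAbs_ne_zero.2 hc
    have h4 := Nat.factorial_ne_zero ((m * n + n + 1) ^ 2)
    positivity
  have haW : f.leadingCoeff ∣ (W : ℤ) := by
    rw [← Int.natAbs_dvd_natAbs, Int.natAbs_natCast]
    exact ⟨m ^ 3 * c.natAbs * ((m * n + n + 1) ^ 2).factorial, by rw [hW]; ring⟩
  have hcW : c ∣ (W : ℤ) := by
    rw [← Int.natAbs_dvd_natAbs, Int.natAbs_natCast]
    exact ⟨m ^ 3 * f.leadingCoeff.natAbs * ((m * n + n + 1) ^ 2).factorial, by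
      rw [hW]; ring⟩
  have hmW3 : m ∣ W := (dvd_pow_self m (by norm_num : 3 ≠ 0)).trans
    ⟨f.leadingCoeff.natAbs * c.natAbs * ((m * n + n + 1) ^ 2).factorial, by rw [hW]; ring⟩
  refine ⟨W, hW0, ?_⟩
  intro D p hp hpW hq
  have hpp := hp.out
  have hpc : ¬ (p : ℤ) ∣ c := fun h => hpW (by exact_mod_cast h.trans hcW)
  have hpa : ¬ (p : ℤ) ∣ f.leadingCoeff := fun h => hpW (by exact_mod_cast h.trans haW)
  by_cases hpk : (p : ℤ) ∣ D
  · -- a zero of `f`
    obtain ⟨r, hr⟩ := hq hpk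
    have h1 : ‖Polynomial.aeval (r : ℤ_[p]) f‖ <
        ‖Polynomial.aeval (r : ℤ_[p]) (derivative f)‖ ^ 2 := by
      have e1 : Polynomial.aeval (r : ℤ_[p]) f = ((f.eval r : ℤ) : ℤ_[p]) := by
        rw [← eq_intCast (algebraMap ℤ ℤ_[p]) r, aeval_algebraMap_apply]
        simp
      have e2 : Polynomial.aeval (r : ℤ_[p]) (derivative f) =
          (((derivative f).eval r : ℤ) : ℤ_[p]) := by
        rw [← eq_intCast (algebraMap ℤ ℤ_[p]) r, aeval_algebraMap_apply]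
        simp
      have h2 : ¬ (p : ℤ) ∣ (derivative f).eval r := by
        intro h
        apply hpc
        have h3 := congrArg (Polynomial.eval r) hUV
        rw [eval_add, eval_mul, eval_mul, eval_C] at h3
        rw [← h3]
        exact dvd_add (Dvd.dvd.mul_left hr _) (Dvd.dvd.mul_left h _)
      have h3 : ‖(((derivative f).eval r : ℤ) : ℤ_[p])‖ = 1 := by
        refine le_antisymm (PadicInt.norm_le_one _) (not_lt.1 fun h => h2 ?_)
        exact (PadicInt.norm_int_lt_one_iff_dvd _).1 h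
      rw [e1, e2, h3, one_pow]
      exact (PadicInt.norm_int_lt_one_iff_dvd _).2 hr
    obtain ⟨z, hz, -⟩ := hensels_lemma h1
    refine ⟨(z : ℚ_[p]), 1, 0, Or.inr one_ne_zero, ?_⟩
    rw [hom_one]
    have h2 : Polynomial.aeval (z : ℚ_[p]) f = ((Polynomial.aeval z f : ℤ_[p]) : ℚ_[p]) := by
      have := Polynomial.aeval_algebraMap_apply ℚ_[p] z f
      exact this
    rw [h2, hz]
    simp [hm.ne']
  · -- a point of good reduction
    have hpm : ¬ p ∣ m := fun h => hpW (h.trans hmW3)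
    have hpn : (m * n + n + 1) ^ 2 < p := by
      by_contra hcon
      rw [not_lt] at hcon
      exact hpW ((Dvd.dvd.mul_left ((hpp.dvd_factorial).2 hcon) _))
    set π : ℤ →+* ZMod p := Int.castRingHom (ZMod p) with hπ
    have hπ0 : ∀ k : ℤ, π k = 0 ↔ (p : ℤ) ∣ k := fun k => by
      rw [hπ, eq_intCast, ZMod.intCast_zmod_eq_zero_iff_dvd]
    have hDk : π D ≠ 0 := fun h => hpk ((hπ0 _).1 h)
    have hfdeg : (f.map π).natDegree = n := by
      apply Polynomial.natDegree_map_of_leadingCoeff_ne_zero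
      exact fun h => hpa ((hπ0 _).1 h)
    have hfsep : (f.map π).Separable := by
      have h3 := congrArg (Polynomial.map π) hUV
      rw [Polynomial.map_add, Polynomial.map_mul, Polynomial.map_mul, Polynomial.map_C,
        ← Polynomial.derivative_map] at h3
      have hc0 : π c ≠ 0 := fun h => hpc ((hπ0 _).1 h)
      refine ⟨C (π c)⁻¹ * U.map π, C (π c)⁻¹ * V.map π, ?_⟩
      have h4 : C (π c)⁻¹ * C (π c) = 1 := by
        rw [← C_mul, inv_mul_cancel₀ hc0, C_1]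
      linear_combination (C (π c)⁻¹) * h3 + h4
    obtain ⟨x, y, hy0, hxy⟩ := h1 p (f.map π) m (π D) hm hDk hfsep.squarefree
      (by rw [hfdeg]; exact hn) (by rw [hfdeg]; exact hpn)
    obtain ⟨x', rfl⟩ := ZMod.intCast_surjective x
    obtain ⟨y', rfl⟩ := ZMod.intCast_surjective y
    have hval : (f.map π).eval ((x' : ℤ) : ZMod p) = ((f.eval x' : ℤ) : ZMod p) := by
      have : (f.map π).eval ((x' : ℤ) : ZMod p) = π (f.eval x') := by
        rw [← eq_intCast π x', Polynomial.eval_map_apply]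
      rw [this, hπ, eq_intCast]
    have hdiv0 : (p : ℤ) ∣ D * y' ^ m - f.eval x' := by
      rw [← ZMod.intCast_zmod_eq_zero_iff_dvd]
      rw [Int.cast_sub, ← hval, ← hxy, hπ, eq_intCast]
      push_cast
      ring
    obtain ⟨m', rfl⟩ : ∃ m', m = m' + 1 := ⟨m - 1, by omega⟩
    have hdiv : (p : ℤ) ∣ (D * y') ^ (m' + 1) - D ^ m' * f.eval x' := by
      have e : (D * y') ^ (m' + 1) - D ^ m' * f.eval x' =
        D ^ m' * (D * y' ^ (m' + 1) - f.eval x') := by ring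
      rw [e]
      exact Dvd.dvd.mul_left hdiv0 _
    have hpy : ¬ (p : ℤ) ∣ y' := by
      intro h
      apply hy0
      rw [ZMod.intCast_zmod_eq_zero_iff_dvd]
      exact h
    have hpprime : Prime (p : ℤ) := Nat.prime_iff_prime_int.1 hpp
    have hnd' : ¬ (p : ℤ) ∣ D ^ m' * f.eval x' := by
      intro h
      have h5 := dvd_add hdiv h
      rw [sub_add_cancel] at h5
      rcases hpprime.dvd_or_dvd (hpprime.dvd_of_dvd_pow h5) with h6 | h6
      · exact hpk h6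
      · exact hpy h6
    obtain ⟨s, hs0, hs⟩ := pow_of p (m' + 1) hm _ (D * y') hnd' (by
      rw [norm_nat_unit p _ hpm, one_pow]
      exact (PadicInt.norm_int_lt_one_iff_dvd _).2 hdiv)
    have hD0' : ((D : ℤ) : ℚ_[p]) ≠ 0 := by
      intro h
      have : (D : ℤ) = 0 := by exact_mod_cast h
      rw [this] at hpk
      exact hpk (dvd_zero _)
    refine ⟨(x' : ℚ_[p]), 1, s / ((D : ℤ) : ℚ_[p]), Or.inr one_ne_zero, ?_⟩
    rw [hom_one, div_pow, hs]
    have e1 : Polynomial.aeval (x' : ℚ_[p]) f = ((f.eval x' : ℤ) : ℚ_[p]) := by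
      rw [← eq_intCast (algebraMap ℤ ℚ_[p]) x', aeval_algebraMap_apply]
      simp
    rw [e1]
    push_cast
    field_simp
    ring

/-- the absolute value of `m` at `p` -/
lemma norm_m (p : ℕ) [hp : Fact p.Prime] (m : ℕ) (hm : 0 < m) :
    ((p : ℝ) ^ (-(m : ℤ))) < ‖(m : ℤ_[p])‖ := by
  refine not_le.1 fun h => ?_
  have h2 : ‖((m : ℤ) : ℤ_[p])‖ ≤ (p : ℝ) ^ (-(m : ℤ)) := by exact_mod_cast h
  have h3 := PadicInt.norm_int_le_pow_iff_dvd.1 h2
  have h4 : p ^ m ∣ m := by exact_mod_cast h3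
  have h5 := Nat.le_of_dvd hm h4
  exact absurd (Nat.lt_pow_self (hp.out.one_lt) (n := m)) (by omega)

/-- Local constancy: if `D' ≡ D` modulo a high power of `p` and `p ^ 2 ∤ D`, a point over `ℚ_p` on the twist by `D`
gives one on the twist by `D'`. -/
theorem near {f : ℤ[X]} {m : ℕ} (hm : 0 < m) {p : ℕ} [hp : Fact p.Prime] {D D' : ℤ}
    (hD : ¬ (p : ℤ) ^ 2 ∣ D) (h : (p : ℤ) ^ (2 * m + 3) ∣ D' - D) (hpt : CurvePtM f m D ℚ_[p]) :
    CurvePtM f m D' ℚ_[p] := by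
  have hpp := hp.out
  have hp0 : (p : ℤ) ≠ 0 := by exact_mod_cast hpp.ne_zero
  -- the parts prime to `p`
  obtain ⟨e, d, hdp, he, rfl⟩ : ∃ (e : ℕ) (d : ℤ), ¬ (p : ℤ) ∣ d ∧ e ≤ 1 ∧ D = (p : ℤ) ^ e * d := by
    by_cases h1 : (p : ℤ) ∣ D
    · obtain ⟨d, rfl⟩ := h1
      refine ⟨1, d, fun h2 => hD ?_, le_rfl, by ring⟩
      rw [pow_two]
      exact mul_dvd_mul_left _ h2
    · exact ⟨0, D, h1, by omega, by ring⟩
  obtain ⟨z, hz⟩ := h
  obtain ⟨d', hd', hdd⟩ : ∃ d' : ℤ, D' = (p : ℤ) ^ e * d' ∧ d' - d = (p : ℤ) ^ (2 * m + 2) *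
      ((p : ℤ) ^ (1 - e) * z) := by
    refine ⟨d + (p : ℤ) ^ (2 * m + 2) * ((p : ℤ) ^ (1 - e) * z), ?_, by ring⟩
    have h1 : (p : ℤ) ^ (2 * m + 3) = (p : ℤ) ^ e * ((p : ℤ) ^ (2 * m + 2) * (p : ℤ) ^ (1 - e)) := by
      rw [← pow_add, ← pow_add]
      congr 1
      omega
    have h2 : D' = (p : ℤ) ^ e * d + (p : ℤ) ^ (2 * m + 3) * z := by linarith
    rw [h2, h1]
    ring
  have hprime : Prime (p : ℤ) := Nat.prime_iff_prime_int.1 hpp
  have hd'p : ¬ (p : ℤ) ∣ d' := by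
    intro h1
    apply hdp
    have h2 : d = d' - (d' - d) := by ring
    rw [h2, hdd]
    exact dvd_sub h1 (Dvd.dvd.mul_right (dvd_pow_self _ (by omega)) _)
  obtain ⟨m', rfl⟩ : ∃ m', m = m' + 1 := ⟨m - 1, by omega⟩
  have hN : ¬ (p : ℤ) ∣ d' * d ^ m' := fun h1 => by
    rcases hprime.dvd_or_dvd h1 with h2 | h2
    · exact hd'p h2
    · exact hdp (hprime.dvd_of_dvd_pow h2)
  obtain ⟨s, hs0, hs⟩ := pow_of p (m' + 1) hm (d' * d ^ m') d hN (by
    have e1 : d ^ (m' + 1) - d' * d ^ m' = (p : ℤ) ^ (2 * (m' + 1) + 2) *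
        (-(d ^ m' * ((p : ℤ) ^ (1 - e) * z))) := by
      have : d ^ (m' + 1) - d' * d ^ m' = -(d ^ m' * (d' - d)) := by ring
      rw [this, hdd]
      ring
    rw [e1]
    have h2 : ‖(((p : ℤ) ^ (2 * (m' + 1) + 2) * (-(d ^ m' * ((p : ℤ) ^ (1 - e) * z))) : ℤ) : ℤ_[p])‖ ≤
        (p : ℝ) ^ (-((2 * (m' + 1) + 2 : ℕ) : ℤ)) :=
      PadicInt.norm_int_le_pow_iff_dvd.2 (by
        exact_mod_cast Dvd.intro _ rfl)
    refine lt_of_le_of_lt h2 ?_
    have h3 := norm_m p (m' + 1) hm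
    have hp1 : (1 : ℝ) < p := by exact_mod_cast hpp.one_lt
    have h4 : (p : ℝ) ^ (-((2 * (m' + 1) + 2 : ℕ) : ℤ)) < ((p : ℝ) ^ (-((m' + 1 : ℕ) : ℤ))) ^ 2 := by
      rw [← zpow_natCast, ← zpow_mul]
      apply zpow_lt_zpow_right₀ hp1
      push_cast
      omega
    refine h4.trans ?_
    exact pow_lt_pow_left₀ h3 (by positivity) (by norm_num))
  obtain ⟨x, w, y, hxw, hy⟩ := hpt
  refine ⟨x, w, y * d / s, hxw, ?_⟩
  have hdQ : (d : ℚ_[p]) ≠ 0 := by
    intro h1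
    have : d = 0 := by exact_mod_cast h1
    rw [this] at hdp
    exact hdp (dvd_zero _)
  have hd'Q : (d' : ℚ_[p]) ≠ 0 := by
    intro h1
    have : d' = 0 := by exact_mod_cast h1
    rw [this] at hd'p
    exact hd'p (dvd_zero _)
  rw [← hy, hd', div_pow, hs]
  push_cast
  field_simp
  ring

end Pool.Agent.U899.LG
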