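import Pool.Agent.U899.LG
import Pool.Agent.Q51.ZC.Zer3

/-!
Local-global principle for the existence of everywhere locally soluble twists `D y ^ m = a x ^ n + b w ^ n`, `n` odd.
-/

set_option autoImplicit false

namespace Pool.Agent.U899.LG

open Polynomial
open Pool.Agent.Q51.EB (CurvePtM ELSM)
open Pool.Agent.Q51.ZC (fq)

/-- a zero of `a X ^ n + b` modulo `l` -/
lemma root_mod {a b : ℤ} {n l : ℕ} (hl : l.Prime) (hn : 0 < n) (ha : ¬ (l : ℤ) ∣ a)
    (h : ∀ p : ℕ, p.Prime → p ∣ n → ¬ p ∣ l - 1) : ∃ r : ℤ, (l : ℤ) ∣ a * r ^ n + b := by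
  have hF : Fact l.Prime := ⟨hl⟩
  have ha' : (a : ZMod l) ≠ 0 := by rwa [Ne, ZMod.intCast_zmod_eq_zero_iff_dvd]
  obtain ⟨v, hv⟩ : ∃ v : ZMod l, v ^ n = -(b : ZMod l) / a := by
    by_cases h0 : -(b : ZMod l) / a = 0
    · exact ⟨0, by rw [h0, zero_pow hn.ne']⟩
    · have hc : (Nat.card (ZMod l)ˣ).Coprime n := by
        rw [Nat.card_eq_fintype_card, ZMod.card_units]
        exact Nat.Coprime.symm (Nat.coprime_of_dvd fun k hk h1 h2 => h k hk h1 h2)
      obtain ⟨u, hu⟩ := (powCoprime hc).surjective (Units.mk0 _ h0)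
      refine ⟨(u : ZMod l), ?_⟩
      have h2 : u ^ n = Units.mk0 _ h0 := hu
      have h3 := congrArg (fun z : (ZMod l)ˣ => (z : ZMod l)) h2
      simpa using h3
  obtain ⟨r, rfl⟩ := ZMod.intCast_surjective v
  refine ⟨r, ?_⟩
  rw [← ZMod.intCast_zmod_eq_zero_iff_dvd]
  push_cast
  rw [hv]
  field_simp
  ring

/-- Up to sign, every class prime to `M` contains a product of two primes `l, l'` such that no prime factor of the odd
number `n` divides `l - 1` or `l' - 1`. -/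
lemma two_primes {n M : ℕ} (hn : Odd n) (hM : M ≠ 0)
    (hnM : ∀ p : ℕ, p.Prime → p ∣ n → p ∣ M) (c : ℤ)
    (hc : ∀ p : ℕ, p.Prime → p ∣ M → ¬ (p : ℤ) ∣ c) :
    ∃ (ε : ℤ) (l l' : ℕ), (ε = 1 ∨ ε = -1) ∧ l.Prime ∧ l'.Prime ∧ l ≠ l' ∧ ¬ l ∣ M ∧ ¬ l' ∣ M ∧
      (M : ℤ) ∣ ε * (l * l') - c ∧ ∀ p : ℕ, p.Prime → p ∣ n → ¬ p ∣ l - 1 ∧ ¬ p ∣ l' - 1 := by
  classical
  have hNe : NeZero M := ⟨hM⟩
  obtain ⟨ε, hε, h3⟩ : ∃ ε : ℤ, (ε = 1 ∨ ε = -1) ∧ (3 ∣ n → (3 : ℤ) ∣ ε * c - 1) := by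
    by_cases h : 3 ∣ n
    · have h1 : ¬ (3 : ℤ) ∣ c := by
        have := hc 3 Nat.prime_three (hnM 3 Nat.prime_three h)
        exact_mod_cast this
      have h2 : c % 3 = 1 ∨ c % 3 = 2 := by omega
      rcases h2 with h2 | h2
      · exact ⟨1, Or.inl rfl, fun _ => by omega⟩
      · exact ⟨-1, Or.inr rfl, fun _ => by omega⟩
    · exact ⟨1, Or.inl rfl, fun h' => absurd h' h⟩
  have hεε : ε * ε = 1 := by rcases hε with rfl | rfl <;> norm_num
  obtain ⟨c', hc'⟩ : ∃ c' : ℤ, c' = ε * c := ⟨_, rfl⟩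
  have hcc : ε * c' = c := by rw [hc', ← mul_assoc, hεε, one_mul]
  rw [← hc'] at h3
  have hcp : ∀ p : ℕ, p.Prime → p ∣ M → ¬ (p : ℤ) ∣ c' := fun p hp hpM h =>
    hc p hp hpM (by rw [← hcc]; exact h.mul_left _)
  obtain ⟨r, hr⟩ : ∃ r : ℕ → ℕ, ∀ p, r p = if ¬ p ∣ n then 1 else
      if (p : ℤ) ∣ c' - 2 then 3 else 2 := ⟨_, fun _ => rfl⟩
  -- the properties of `r`
  have hr1 : ∀ p : ℕ, p.Prime → p ∣ n → ((r p = 2 ∧ ¬ (p : ℤ) ∣ c' - 2) ∨
      (r p = 3 ∧ (p : ℤ) ∣ c' - 2 ∧ p ≠ 3)) := by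
    intro p hp hpn
    rw [hr, if_neg (not_not.2 hpn)]
    by_cases h : (p : ℤ) ∣ c' - 2
    · rw [if_pos h]
      refine Or.inr ⟨rfl, h, ?_⟩
      rintro rfl
      have h1 := h3 hpn
      have h2 : (3 : ℤ) ∣ c' - 2 := by exact_mod_cast h
      omega
    · rw [if_neg h]
      exact Or.inl ⟨rfl, h⟩
  have hodd : ∀ p : ℕ, p.Prime → p ∣ n → p ≠ 2 := by
    rintro p hp hpn rfl
    exact (Nat.not_even_iff_odd.2 hn) (even_iff_two_dvd.2 hpn)
  obtain ⟨x, hx⟩ := Nat.chineseRemainderOfFinset r (fun p => p) M.primeFactors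
    (fun p hp => (Nat.prime_of_mem_primeFactors hp).ne_zero)
    (fun p hp q hq hpq => (Nat.coprime_primes (Nat.prime_of_mem_primeFactors hp)
      (Nat.prime_of_mem_primeFactors hq)).2 hpq)
  have hxr : ∀ p : ℕ, p.Prime → p ∣ M → (p : ℤ) ∣ x - r p := fun p hp hpM => by
    have h1 := hx p (Nat.mem_primeFactors.2 ⟨hp, hpM, hM⟩)
    have h2 : ((r p : ℕ) : ℤ) ≡ x [ZMOD p] := (Int.natCast_modEq_iff.2 h1).symm
    exact h2.dvd
  have hxM : Nat.Coprime x M := by
    refine Nat.coprime_of_dvd fun p hp h1 h2 => ?_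
    have h4 := hxr p hp h2
    have h5 : (p : ℤ) ∣ (r p : ℤ) := by
      have e : (r p : ℤ) = x - (x - r p) := by ring
      rw [e]
      exact dvd_sub (by exact_mod_cast h1) h4
    have h6 : p ∣ r p := by exact_mod_cast h5
    by_cases hpn : p ∣ n
    · rcases hr1 p hp hpn with ⟨h7, -⟩ | ⟨h7, -, h8⟩
      · rw [h7] at h6
        exact hodd p hp hpn ((Nat.prime_dvd_prime_iff_eq hp Nat.prime_two).1 h6)
      · rw [h7] at h6
        exact h8 ((Nat.prime_dvd_prime_iff_eq hp Nat.prime_three).1 h6)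
    · rw [hr, if_pos hpn] at h6
      exact hp.one_lt.ne' (Nat.dvd_one.1 h6)
  have hux : IsUnit (x : ZMod M) := (ZMod.isUnit_iff_coprime x M).2 hxM
  obtain ⟨l, hlM, hl, hlx⟩ := Nat.forall_exists_prime_gt_and_eq_mod hux M
  have huc : IsUnit ((c' : ZMod M)) := by
    have h1 : IsCoprime c' (M : ℤ) := by
      rw [Int.isCoprime_iff_gcd_eq_one]
      show Nat.Coprime c'.natAbs (Int.natAbs (M : ℤ))
      rw [Int.natAbs_natCast]
      exact Nat.coprime_of_dvd fun p hp h1 h2 => hcp p hp h2 (Int.natCast_dvd.2 h1)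
    exact (ZMod.coe_int_isUnit_iff_isCoprime c' M).2 h1.symm
  obtain ⟨u, hu⟩ := hux
  have huc' : IsUnit ((c' : ZMod M) * ((u⁻¹ : (ZMod M)ˣ) : ZMod M)) := huc.mul (u⁻¹).isUnit
  obtain ⟨l', hl'l, hl', hl'x⟩ := Nat.forall_exists_prime_gt_and_eq_mod huc' l
  have hprod : (M : ℤ) ∣ l * l' - c' := by
    rw [← ZMod.intCast_zmod_eq_zero_iff_dvd]
    push_cast
    rw [hlx, hl'x, ← hu]
    rw [mul_comm (c' : ZMod M), ← mul_assoc, Units.mul_inv, one_mul, sub_self]
  have hlx' : (M : ℤ) ∣ l - x := by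
    rw [← ZMod.intCast_zmod_eq_zero_iff_dvd]
    push_cast
    rw [hlx, sub_self]
  refine ⟨ε, l, l', hε, hl, hl', by omega, fun h => ?_, fun h => ?_, ?_, ?_⟩
  · exact absurd (Nat.le_of_dvd (Nat.pos_of_ne_zero hM) h) (by omega)
  · exact absurd (Nat.le_of_dvd (Nat.pos_of_ne_zero hM) h) (by omega)
  · have e : ε * ((l : ℤ) * l') - c = ε * (l * l' - c') := by rw [mul_sub, hcc]
    rw [e]
    exact hprod.mul_left _
  · intro p hp hpn
    have hpM := hnM p hp hpn
    have hpM' : (p : ℤ) ∣ M := by exact_mod_cast hpM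
    have h1 : (p : ℤ) ∣ l - r p := by
      have e : (l : ℤ) - r p = (l - x) + (x - r p) := by ring
      rw [e]
      exact dvd_add (hpM'.trans hlx') (hxr p hp hpM)
    have hp2 := hodd p hp hpn
    have hp1 : (1 : ℤ) < p := by exact_mod_cast hp.one_lt
    constructor
    · intro h
      have h2 : (p : ℤ) ∣ l - 1 := by
        have h3 : ((p : ℕ) : ℤ) ∣ ((l - 1 : ℕ) : ℤ) := by exact_mod_cast h
        rwa [Nat.cast_sub hl.one_le, Nat.cast_one] at h3
      have h4 : (p : ℤ) ∣ (r p : ℤ) - 1 := by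
        have e : (r p : ℤ) - 1 = (l - 1) - (l - r p) := by ring
        rw [e]
        exact dvd_sub h2 h1
      rcases hr1 p hp hpn with ⟨h7, -⟩ | ⟨h7, -, h8⟩
      · rw [h7] at h4
        have := Int.le_of_dvd (by norm_num) h4
        norm_num at this
        omega
      · rw [h7] at h4
        have h5 : (p : ℤ) ∣ ((2 : ℕ) : ℤ) := by
          have : ((3 : ℕ) : ℤ) - 1 = ((2 : ℕ) : ℤ) := by norm_num
          rwa [this] at h4
        have h6 : p ∣ 2 := by exact_mod_cast h5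
        exact hp2 ((Nat.prime_dvd_prime_iff_eq hp Nat.prime_two).1 h6)
    · intro h
      have h2 : (p : ℤ) ∣ l' - 1 := by
        have h3 : ((p : ℕ) : ℤ) ∣ ((l' - 1 : ℕ) : ℤ) := by exact_mod_cast h
        rwa [Nat.cast_sub hl'.one_le, Nat.cast_one] at h3
      have h4 : (p : ℤ) ∣ c' - r p := by
        have e : c' - (r p : ℤ) = (l - r p) + l * (l' - 1) - (l * l' - c') := by ring
        rw [e]
        exact dvd_sub (dvd_add h1 (h2.mul_left _)) (hpM'.trans hprod)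
      rcases hr1 p hp hpn with ⟨h7, h9⟩ | ⟨h7, h9, h8⟩
      · rw [h7] at h4
        exact h9 (by exact_mod_cast h4)
      · rw [h7] at h4
        have h5 : (p : ℤ) ∣ 1 := by
          have e : (1 : ℤ) = (c' - 2) - (c' - ((3 : ℕ) : ℤ)) := by push_cast; ring
          rw [e]
          exact dvd_sub h9 h4
        have := Int.le_of_dvd (by norm_num) h5
        omega

lemma squarefree_primes (s : Finset ℕ) (hs : ∀ p ∈ s, p.Prime) : Squarefree (∏ p ∈ s, p) := by
  classical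
  induction s using Finset.induction_on with
  | empty => simp
  | insert q s hq ih =>
    rw [Finset.prod_insert hq]
    have h1 : Nat.Coprime q (∏ p ∈ s, p) := by
      refine Nat.Coprime.prod_right fun p hp => ?_
      refine (Nat.coprime_primes (hs q (Finset.mem_insert_self _ _))
        (hs p (Finset.mem_insert_of_mem hp))).2 ?_
      rintro rfl
      exact hq hp
    rw [Nat.squarefree_mul h1]
    exact ⟨(hs q (Finset.mem_insert_self _ _)).squarefree,
      ih fun p hp => hs p (Finset.mem_insert_of_mem hp)⟩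

lemma fq_eval (a b : ℤ) (n : ℕ) (r : ℤ) : (fq a b n).eval r = a * r ^ n + b := by
  simp [fq]

/-- the real points -/
lemma real_pt {a b : ℤ} {n m : ℕ} (hn : Odd n) (hm : 0 < m) (ha : a ≠ 0) (D : ℤ) :
    CurvePtM (fq a b n) m D ℝ := by
  obtain ⟨x, hx⟩ : ∃ x : ℝ, x ^ n = -(b : ℝ) / a := by
    rcases le_total 0 (-(b : ℝ) / a) with h | h
    · exact ⟨(-(b : ℝ) / a) ^ ((n : ℝ)⁻¹), Real.rpow_inv_natCast_pow h hn.pos.ne'⟩
    · refine ⟨-((-(-(b : ℝ) / a)) ^ ((n : ℝ)⁻¹)), ?_⟩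
      rw [hn.neg_pow, Real.rpow_inv_natCast_pow (by linarith) hn.pos.ne']
      ring
  refine ⟨x, 1, 0, Or.inr one_ne_zero, ?_⟩
  rw [zero_pow hm.ne', mul_zero]
  have ha' : (a : ℝ) ≠ 0 := by exact_mod_cast ha
  rw [_root_.Q52.EL.hom_one]
  have : aeval x (fq a b n) = (a : ℝ) * x ^ n + b := by simp [fq]
  rw [this, hx]
  field_simp
  ring

/-- **Local-global principle.** Let `n` be odd. If for every prime `p` some twist `D y ^ m = a x ^ n + b w ^ n` with
`p ^ 2 ∤ D` has a point over `ℚ_p`, there is a squarefree `D` such that `D y ^ m = a x ^ n + b w ^ n` is everywhere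
locally soluble. -/
theorem lg {a b : ℤ} {n m : ℕ} (hn : Odd n) (hm : 0 < m) (ha : a ≠ 0)
    (hirr : Irreducible ((fq a b n).map (Int.castRingHom ℚ)))
    (hloc : ∀ (p : ℕ) [Fact p.Prime], ∃ D : ℤ, ¬ (p : ℤ) ^ 2 ∣ D ∧ CurvePtM (fq a b n) m D ℚ_[p]) :
    ∃ D : ℤ, Squarefree D ∧ ELSM (fq a b n) m D := by
  classical
  obtain ⟨W, hW0, hW⟩ := good (fq a b n) hirr m hm
  have hd0 : ∀ p : ℕ, ∃ D : ℤ, p.Prime → ¬ (p : ℤ) ^ 2 ∣ D ∧
      ∀ _ : Fact p.Prime, CurvePtM (fq a b n) m D ℚ_[p] := by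
    intro p
    by_cases hp : p.Prime
    · have : Fact p.Prime := ⟨hp⟩
      obtain ⟨D, h1, h2⟩ := hloc p
      exact ⟨D, fun _ => ⟨h1, fun _ => h2⟩⟩
    · exact ⟨0, fun h => absurd h hp⟩
  choose d hd using hd0
  obtain ⟨B, hB⟩ : ∃ B : ℕ, B = W * n * a.natAbs := ⟨_, rfl⟩
  have hB0 : B ≠ 0 := by
    rw [hB]
    exact mul_ne_zero (mul_ne_zero hW0 hn.pos.ne') (Int.natAbs_ne_zero.2 ha)
  obtain ⟨E, hE⟩ : ∃ E : ℕ, E = 2 * m + 3 := ⟨_, rfl⟩
  have hprime : ∀ p ∈ B.primeFactors, p.Prime := fun p hp => Nat.prime_of_mem_primeFactors hp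
  obtain ⟨x, hx⟩ := Nat.chineseRemainderOfFinset (fun p => ((d p) % ((p ^ E : ℕ) : ℤ)).toNat)
    (fun p => p ^ E) B.primeFactors (fun p hp => pow_ne_zero _ (hprime p hp).ne_zero)
    (fun p hp q hq hpq => Nat.Coprime.pow E E
      ((Nat.coprime_primes (hprime p hp) (hprime q hq)).2 hpq))
  have hxd : ∀ p ∈ B.primeFactors, (p : ℤ) ^ E ∣ x - d p := by
    intro p hp
    have hpE : 0 < p ^ E := pow_pos (hprime p hp).pos _
    have h1 : (((d p) % ((p ^ E : ℕ) : ℤ)).toNat : ℤ) ≡ x [ZMOD (p ^ E : ℕ)] :=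
      (Int.natCast_modEq_iff.2 (hx p hp)).symm
    rw [Int.toNat_of_nonneg (Int.emod_nonneg _ (by exact_mod_cast hpE.ne'))] at h1
    have h2 : d p ≡ x [ZMOD (p ^ E : ℕ)] := (Int.mod_modEq _ _).symm.trans h1
    have h3 := h2.dvd
    push_cast at h3
    exact h3
  have hpxE : ∀ p ∈ B.primeFactors, (p : ℤ) ∣ x - d p := fun p hp =>
    (dvd_pow_self _ (by omega)).trans (hxd p hp)
  have hpx2 : ∀ p ∈ B.primeFactors, (p : ℤ) ^ 2 ∣ x - d p := fun p hp =>
    (pow_dvd_pow _ (by omega)).trans (hxd p hp)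
  obtain ⟨S, hS⟩ : ∃ S : Finset ℕ, S = B.primeFactors.filter (fun p : ℕ => (p : ℤ) ∣ d p) := ⟨_, rfl⟩
  have hSB : ∀ p ∈ S, p ∈ B.primeFactors := fun p hp => by
    rw [hS] at hp
    exact (Finset.mem_filter.1 hp).1
  have hPx : ∏ p ∈ S, p ∣ x := by
    refine Finset.prod_primes_dvd x (fun p hp => (hprime p (hSB p hp)).prime) fun p hp => ?_
    have h1 := hpxE p (hSB p hp)
    rw [hS] at hp
    have h2 := (Finset.mem_filter.1 hp).2
    have h3 : (p : ℤ) ∣ x := by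
      have e : (x : ℤ) = (x - d p) + d p := by ring
      rw [e]
      exact dvd_add h1 h2
    exact_mod_cast h3
  obtain ⟨x', hx'⟩ := hPx
  obtain ⟨P, hP⟩ : ∃ P : ℕ, P = ∏ p ∈ S, p := ⟨_, rfl⟩
  rw [← hP] at hx'
  obtain ⟨M, hM⟩ : ∃ M : ℕ, M = ∏ p ∈ B.primeFactors, p ^ E := ⟨_, rfl⟩
  have hM0 : M ≠ 0 := by
    rw [hM]
    exact Finset.prod_ne_zero_iff.2 fun p hp => pow_ne_zero _ (hprime p hp).ne_zero
  have hpM : ∀ p ∈ B.primeFactors, p ^ E ∣ M := fun p hp => by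
    rw [hM]
    exact Finset.dvd_prod_of_mem _ hp
  have hMp : ∀ q : ℕ, q.Prime → q ∣ M → q ∈ B.primeFactors := by
    intro q hq hqM
    rw [hM] at hqM
    obtain ⟨p, hp, hqp⟩ := (Prime.dvd_finsetProd_iff hq.prime _).1 hqM
    have h1 := (Nat.prime_dvd_prime_iff_eq hq (hprime p hp)).1 (hq.dvd_of_dvd_pow hqp)
    rw [h1]
    exact hp
  have hx'c : ∀ q : ℕ, q.Prime → q ∣ M → ¬ (q : ℤ) ∣ (x' : ℤ) := by
    intro q hq hqM h
    have hqB := hMp q hq hqM
    have h1 : q ∣ x' := by exact_mod_cast h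
    by_cases hqd : (q : ℤ) ∣ d q
    · have hqS : q ∈ S := by
        rw [hS]
        exact Finset.mem_filter.2 ⟨hqB, hqd⟩
      have hqP : q ∣ P := by
        rw [hP]
        exact Finset.dvd_prod_of_mem _ hqS
      have h2 : q ^ 2 ∣ x := by
        rw [hx', pow_two]
        exact mul_dvd_mul hqP h1
      have h3 : (q : ℤ) ^ 2 ∣ x := by exact_mod_cast h2
      apply (hd q hq).1
      have e : d q = x - (x - d q) := by ring
      rw [e]
      exact dvd_sub h3 (hpx2 q hqB)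
    · apply hqd
      have h3 : (q : ℤ) ∣ x := by
        have : q ∣ x := by
          rw [hx']
          exact h1.mul_left _
        exact_mod_cast this
      have e : d q = x - (x - d q) := by ring
      rw [e]
      exact dvd_sub h3 (hpxE q hqB)
  have hnM : ∀ p : ℕ, p.Prime → p ∣ n → p ∣ M := by
    intro p hp hpn
    have h1 : p ∈ B.primeFactors := Nat.mem_primeFactors.2 ⟨hp, by
      rw [hB]
      exact (hpn.mul_left _).mul_right _, hB0⟩
    exact (dvd_pow_self _ (by omega)).trans (hpM p h1)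
  obtain ⟨ε, l, l', hε, hl, hl', hll, hlM, hl'M, hprod, hres⟩ := two_primes hn hM0 hnM (x' : ℤ) hx'c
  have hPM : ∀ q : ℕ, q.Prime → q ∣ P → q ∣ M := by
    intro q hq hqP
    rw [hP] at hqP
    obtain ⟨p, hp, hqp⟩ := (Prime.dvd_finsetProd_iff hq.prime _).1 hqP
    have h1 := (Nat.prime_dvd_prime_iff_eq hq (hprime p (hSB p hp))).1 hqp
    rw [h1]
    exact (dvd_pow_self _ (by omega)).trans (hpM p (hSB p hp))
  have haM : ∀ q : ℕ, q.Prime → ¬ q ∣ M → ¬ (q : ℤ) ∣ a := by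
    intro q hq hqM h
    apply hqM
    have h1 : q ∈ B.primeFactors := Nat.mem_primeFactors.2 ⟨hq, by
      rw [hB]
      exact (Int.natCast_dvd.1 h).mul_left _, hB0⟩
    exact (dvd_pow_self _ (by omega)).trans (hpM q h1)
  refine ⟨ε * (P * (l * l')), ?_, real_pt hn hm ha _, fun p hp => ?_⟩
  · rw [← Int.squarefree_natAbs]
    have e : (ε * ((P : ℤ) * (l * l'))).natAbs = P * (l * l') := by
      rw [Int.natAbs_mul]
      have h1 : ε.natAbs = 1 := by rcases hε with rfl | rfl <;> rfl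
      rw [h1, one_mul]
      have h2 : ((P : ℤ) * (l * l')) = ((P * (l * l') : ℕ) : ℤ) := by push_cast; ring
      rw [h2, Int.natAbs_natCast]
    rw [e]
    have hc1 : Nat.Coprime l l' := (Nat.coprime_primes hl hl').2 hll
    have hc2 : Nat.Coprime P (l * l') := by
      refine Nat.coprime_of_dvd fun q hq h1 h2 => ?_
      have h3 := hPM q hq h1
      rcases (hq.dvd_mul).1 h2 with h4 | h4
      · rw [(Nat.prime_dvd_prime_iff_eq hq hl).1 h4] at h3
        exact hlM h3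
      · rw [(Nat.prime_dvd_prime_iff_eq hq hl').1 h4] at h3
        exact hl'M h3
    rw [Nat.squarefree_mul hc2, Nat.squarefree_mul hc1]
    refine ⟨?_, hl.squarefree, hl'.squarefree⟩
    rw [hP]
    exact squarefree_primes S fun p hp => hprime p (hSB p hp)
  · have hpp := hp.out
    by_cases hpB : p ∈ B.primeFactors
    · obtain ⟨h1, h2⟩ := hd p hpp
      refine near hm h1 ?_ (h2 hp)
      rw [← hE]
      have h3 : (p : ℤ) ^ E ∣ (M : ℤ) := by exact_mod_cast hpM p hpB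
      have e : ε * ((P : ℤ) * (l * l')) - d p = P * (ε * (l * l') - x') + (x - d p) := by
        rw [hx']
        push_cast
        ring
      rw [e]
      exact dvd_add ((h3.trans hprod).mul_left _) (hxd p hpB)
    · have hpM' : ¬ p ∣ M := fun h => hpB (hMp p hpp h)
      refine hW _ p (fun h => hpB (Nat.mem_primeFactors.2 ⟨hpp, ?_, hB0⟩)) fun h => ?_
      · rw [hB]
        exact (h.mul_right _).mul_right _
      · obtain ⟨r, hr⟩ := root_mod (a := a) (b := b) hpp hn.pos (haM p hpp hpM') (by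
          have hpint : Prime (p : ℤ) := Nat.prime_iff_prime_int.1 hpp
          rcases hpint.dvd_or_dvd h with h1 | h1
          · exfalso
            have h2 : (p : ℤ) ∣ 1 := by
              rcases hε with rfl | rfl
              · exact h1
              · exact (dvd_neg.1 (by simpa using h1))
            have h3 : p ∣ 1 := by exact_mod_cast h2
            exact hpp.one_lt.ne' (Nat.dvd_one.1 h3)
          · have h2 : p ∣ P * (l * l') := by exact_mod_cast h1
            rcases (hpp.dvd_mul).1 h2 with h3 | h3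
            · exact absurd (hPM p hpp h3) hpM'
            · rcases (hpp.dvd_mul).1 h3 with h4 | h4
              · rw [(Nat.prime_dvd_prime_iff_eq hpp hl).1 h4]
                exact fun q hq hqn => (hres q hq hqn).1
              · rw [(Nat.prime_dvd_prime_iff_eq hpp hl').1 h4]
                exact fun q hq hqn => (hres q hq hqn).2)
        exact ⟨r, by rw [fq_eval]; exact hr⟩

end Pool.Agent.U899.LG
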